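import Mathlib

/-!
# Zero sets of two multi-affine polynomials can have arbitrarily many components

The first polynomial used below is linear, `P = x₀ + ∑ xᵢ`; on the hyperplane `P = 0` the second
(multi-affine, of degree `4`) becomes `c - ∑ₖ g (block k)`, where `g` is a quartic in three
variables with two nondegenerate minima `± (1, 1, 1)`.
-/

set_option autoImplicit false

namespace Pool.Agent.Results.MP_12b847_ag.TwoPolynomials

open MvPolynomial

/-- `P` is multi-affine: its degree in each variable is at most `1`. -/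
def IsMultiAffine {n : ℕ} (P : MvPolynomial (Fin n) ℝ) : Prop := ∀ i, P.degreeOf i ≤ 1

/-- `Z(P, Q)`, the set of common real zeros. -/
def zeroSet {n : ℕ} (P Q : MvPolynomial (Fin n) ℝ) : Set (Fin n → ℝ) :=
  {x | eval x P = 0 ∧ eval x Q = 0}

/-- `b₀(V)`, the number of connected components of `V` (for the Euclidean topology). -/
noncomputable def b0 {n : ℕ} (V : Set (Fin n → ℝ)) : ℕ∞ := ENat.card (ConnectedComponents V)

/-- `N₂(d, n)`, the supremum of `b₀(Z(P, Q))` over all pairs of multi-affine polynomials `P`, `Q` in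
`n` variables of degree at most `d`. -/
noncomputable def N2 (d n : ℕ) : ℕ∞ :=
  ⨆ (P : MvPolynomial (Fin n) ℝ) (Q : MvPolynomial (Fin n) ℝ) (_ : IsMultiAffine P)
    (_ : IsMultiAffine Q) (_ : P.totalDegree ≤ d) (_ : Q.totalDegree ≤ d), b0 (zeroSet P Q)

/-- index set of the variables -/
abbrev V (K : ℕ) := Option (Fin K × Fin 3)

variable {K : ℕ}

noncomputable def v (k : Fin K) (j : Fin 3) : MvPolynomial (V K) ℝ := X (some (k, j))
noncomputable def s (k : Fin K) : MvPolynomial (V K) ℝ := v k 0 + v k 1 + v k 2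
noncomputable def h (k : Fin K) : MvPolynomial (V K) ℝ := v k 0 * v k 1 * v k 2 + C 2 * s k
noncomputable def e (k : Fin K) : MvPolynomial (V K) ℝ := v k 0 * v k 1 + v k 1 * v k 2 + v k 2 * v k 0

noncomputable def P (K : ℕ) : MvPolynomial (V K) ℝ := X none + ∑ k, s k
noncomputable def Q (K : ℕ) : MvPolynomial (V K) ℝ :=
  X none * ∑ k, h k + ∑ k, ∑ l, (if k = l then 0 else s k * h l) + ∑ k, (C 8 * e k - C 3)
    + C (5043 / 160000)

/-- the weight bounding the degrees -/
def w : V K → Fin K → ℕ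
  | none, _ => 0
  | some (a, _), k => if a = k then 1 else 0

lemma deg_v (i : V K) (k : Fin K) (j : Fin 3) : degreeOf i (v k j) ≤ w i k := by
  classical
  unfold v
  rw [degreeOf_X]
  split_ifs with hh
  · subst hh; simp [w]
  · exact Nat.zero_le _

lemma deg_s (i : V K) (k : Fin K) : degreeOf i (s k) ≤ w i k := by
  unfold s
  exact (degreeOf_add_le _ _ _).trans (max_le ((degreeOf_add_le _ _ _).trans
    (max_le (deg_v _ _ _) (deg_v _ _ _))) (deg_v _ _ _))

lemma deg_vvv (i : V K) (k : Fin K) : degreeOf i (v k 0 * v k 1 * v k 2) ≤ w i k := by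
  classical
  refine (degreeOf_mul_le _ _ _).trans ((add_le_add (degreeOf_mul_le _ _ _) le_rfl).trans ?_)
  unfold v
  rw [degreeOf_X, degreeOf_X, degreeOf_X]
  rcases i with _ | ⟨a, b⟩
  · simp [w]
  · by_cases hak : a = k
    · subst hak
      fin_cases b <;> simp [w]
    · simp [w, hak]

lemma deg_vv (i : V K) (k : Fin K) (j j' : Fin 3) (hj : j ≠ j') :
    degreeOf i (v k j * v k j') ≤ w i k := by
  classical
  refine (degreeOf_mul_le _ _ _).trans ?_
  unfold v
  rw [degreeOf_X, degreeOf_X]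
  rcases i with _ | ⟨a, b⟩
  · simp [w]
  · by_cases hak : a = k
    · subst hak
      by_cases hb : b = j
      · subst hb
        simp [w, hj]
      · simp only [w, Option.some.injEq, Prod.mk.injEq, true_and, hb, if_false, zero_add, if_true]
        split_ifs <;> simp
    · simp [w, hak]

lemma deg_h (i : V K) (k : Fin K) : degreeOf i (h k) ≤ w i k := by
  unfold h
  refine (degreeOf_add_le _ _ _).trans (max_le (deg_vvv _ _) ?_)
  exact (degreeOf_C_mul_le _ _ _).trans (deg_s _ _)

lemma deg_e (i : V K) (k : Fin K) : degreeOf i (e k) ≤ w i k := by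
  unfold e
  exact (degreeOf_add_le _ _ _).trans (max_le ((degreeOf_add_le _ _ _).trans
    (max_le (deg_vv _ _ _ _ (by decide)) (deg_vv _ _ _ _ (by decide))))
    (deg_vv _ _ _ _ (by decide)))

lemma w_le (i : V K) (k : Fin K) : w i k ≤ 1 := by
  rcases i with _ | ⟨a, b⟩
  · simp [w]
  · simp only [w]; split_ifs <;> simp

lemma w_add (i : V K) {k l : Fin K} (hkl : k ≠ l) : w i k + w i l ≤ 1 := by
  rcases i with _ | ⟨a, b⟩
  · simp [w]
  · simp only [w]
    split_ifs with h1 h2
    · exact absurd (h1.symm.trans h2) hkl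
    all_goals simp

lemma P_aff (i : V K) : degreeOf i (P K) ≤ 1 := by
  classical
  unfold P
  refine (degreeOf_add_le _ _ _).trans (max_le ?_ ?_)
  · rw [degreeOf_X]; split_ifs <;> simp
  · exact (degreeOf_sum_le _ _ _).trans (Finset.sup_le fun k _ => (deg_s _ _).trans (w_le _ _))

lemma Q_aff (i : V K) : degreeOf i (Q K) ≤ 1 := by
  classical
  unfold Q
  refine (degreeOf_add_le _ _ _).trans (max_le ?_ (by simp))
  refine (degreeOf_add_le _ _ _).trans (max_le ?_ ?_)
  · refine (degreeOf_add_le _ _ _).trans (max_le ?_ ?_)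
    · refine (degreeOf_mul_le _ _ _).trans ?_
      have h2 : degreeOf i (∑ k : Fin K, h k) ≤ if i = none then 0 else 1 := by
        refine (degreeOf_sum_le _ _ _).trans (Finset.sup_le fun k _ => (deg_h _ _).trans ?_)
        rcases i with _ | ⟨a, b⟩
        · simp [w]
        · simpa using w_le (some (a, b)) k
      have h3 : degreeOf i (X none : MvPolynomial (V K) ℝ) = if i = none then 1 else 0 :=
        degreeOf_X _ _
      rw [h3]
      split_ifs at h2 ⊢ <;> omega
    · refine (degreeOf_sum_le _ _ _).trans (Finset.sup_le fun k _ => ?_)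
      refine (degreeOf_sum_le _ _ _).trans (Finset.sup_le fun l _ => ?_)
      split_ifs with hkl
      · simp
      · exact (degreeOf_mul_le _ _ _).trans
          ((add_le_add (deg_s _ _) (deg_h _ _)).trans (w_add _ hkl))
  · refine (degreeOf_sum_le _ _ _).trans (Finset.sup_le fun k _ => ?_)
    rw [sub_eq_add_neg]
    refine (degreeOf_add_le _ _ _).trans (max_le ?_ ?_)
    · exact (degreeOf_C_mul_le _ _ _).trans ((deg_e _ _).trans (w_le _ _))
    · rw [← C_neg]; simp

lemma td_v (k : Fin K) (j : Fin 3) : (v k j).totalDegree ≤ 1 := by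
  unfold v; rw [totalDegree_X]

lemma td_add {p q : MvPolynomial (V K) ℝ} {d : ℕ} (hp : p.totalDegree ≤ d)
    (hq : q.totalDegree ≤ d) : (p + q).totalDegree ≤ d :=
  (totalDegree_add _ _).trans (max_le hp hq)

lemma td_mul {p q : MvPolynomial (V K) ℝ} {d d' : ℕ} (hp : p.totalDegree ≤ d)
    (hq : q.totalDegree ≤ d') : (p * q).totalDegree ≤ d + d' :=
  (totalDegree_mul _ _).trans (add_le_add hp hq)

lemma td_sum {ι : Type} {f : ι → MvPolynomial (V K) ℝ} {S : Finset ι} {d : ℕ}
    (hf : ∀ i ∈ S, (f i).totalDegree ≤ d) : (∑ i ∈ S, f i).totalDegree ≤ d :=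
  (totalDegree_finsetSum _ _).trans (Finset.sup_le hf)

lemma td_C (a : ℝ) (d : ℕ) : (C a : MvPolynomial (V K) ℝ).totalDegree ≤ d := by
  rw [totalDegree_C]; exact Nat.zero_le _

lemma td_s (k : Fin K) : (s k).totalDegree ≤ 1 :=
  td_add (td_add (td_v _ _) (td_v _ _)) (td_v _ _)

lemma td_h (k : Fin K) : (h k).totalDegree ≤ 3 := by
  refine td_add (td_mul (d := 2) (d' := 1) (td_mul (d := 1) (d' := 1) (td_v _ _) (td_v _ _))
    (td_v _ _)) ?_
  exact (td_mul (d := 0) (d' := 1) (td_C _ _) (td_s _)).trans (by norm_num)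

lemma td_e (k : Fin K) : (e k).totalDegree ≤ 2 :=
  td_add (td_add (td_mul (d := 1) (d' := 1) (td_v _ _) (td_v _ _))
    (td_mul (d := 1) (d' := 1) (td_v _ _) (td_v _ _))) (td_mul (d := 1) (d' := 1) (td_v _ _) (td_v _ _))

lemma td_P : (P K).totalDegree ≤ 4 := by
  unfold P
  refine td_add (by rw [totalDegree_X]; norm_num) (td_sum fun k _ => (td_s k).trans (by norm_num))

lemma td_Q : (Q K).totalDegree ≤ 4 := by
  unfold Q
  refine td_add (td_add (td_add ?_ ?_) ?_) (td_C _ _)
  · exact td_mul (d := 1) (d' := 3) (by rw [totalDegree_X]) (td_sum fun k _ => td_h k)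
  · refine td_sum fun k _ => td_sum fun l _ => ?_
    split_ifs
    · simp
    · exact td_mul (d := 1) (d' := 3) (td_s _) (td_h _)
  · refine td_sum fun k _ => ?_
    rw [sub_eq_add_neg, ← C_neg]
    exact td_add ((td_mul (d := 0) (d' := 2) (td_C _ _) (td_e _)).trans (by norm_num)) (td_C _ _)

/-- the block function, plus `3` -/
def g (a b c : ℝ) : ℝ :=
  (a + b + c) * (a * b * c + 2 * (a + b + c)) - 8 * (a * b + b * c + c * a) + 3

lemma g_lower_one {a b c : ℝ} (ha : |a - 1| ≤ 1 / 4) (hb : |b - 1| ≤ 1 / 4) (hc : |c - 1| ≤ 1 / 4) :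
    (a - 1) ^ 2 + (b - 1) ^ 2 + (c - 1) ^ 2 ≤ g a b c := by
  obtain ⟨x, rfl⟩ : ∃ x, a = 1 + x := ⟨a - 1, by ring⟩
  obtain ⟨y, rfl⟩ : ∃ y, b = 1 + y := ⟨b - 1, by ring⟩
  obtain ⟨z, rfl⟩ : ∃ z, c = 1 + z := ⟨c - 1, by ring⟩
  rw [add_sub_cancel_left] at ha hb hc
  have key : g (1 + x) (1 + y) (1 + z) = (1 / 2) * (x + y + z) ^ 2 +
      (5 / 2) * (x ^ 2 + y ^ 2 + z ^ 2) + (x + y + z) * (x * y + y * z + z * x) +
      3 * (x * y * z) + (x + y + z) * (x * y * z) := by
    unfold g; ring
  rw [key]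
  have hs : |x + y + z| ≤ 3 / 4 := by
    calc |x + y + z| ≤ |x| + |y| + |z| := abs_add_three x y z
      _ ≤ 3 / 4 := by linarith
  have he : |x * y + y * z + z * x| ≤ x ^ 2 + y ^ 2 + z ^ 2 := by
    rw [abs_le]
    constructor <;> nlinarith [sq_nonneg (x + y + z), sq_nonneg (x - y), sq_nonneg (y - z),
      sq_nonneg (z - x)]
  have hp : |x * y * z| ≤ (1 / 8) * (x ^ 2 + y ^ 2 + z ^ 2) := by
    have h1 : |x * y| ≤ (1 / 2) * (x ^ 2 + y ^ 2) := by
      rw [abs_le]
      constructor <;> nlinarith [sq_nonneg (x + y), sq_nonneg (x - y)]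
    rw [abs_mul]
    calc |x * y| * |z| ≤ ((1 / 2) * (x ^ 2 + y ^ 2)) * (1 / 4) :=
          mul_le_mul h1 hc (abs_nonneg _) (by positivity)
      _ ≤ _ := by nlinarith [sq_nonneg z]
  have h1 : |(x + y + z) * (x * y + y * z + z * x)| ≤ 3 / 4 * (x ^ 2 + y ^ 2 + z ^ 2) := by
    rw [abs_mul]
    exact mul_le_mul hs he (abs_nonneg _) (by norm_num)
  have h2 : |(x + y + z) * (x * y * z)| ≤ 3 / 4 * ((1 / 8) * (x ^ 2 + y ^ 2 + z ^ 2)) := by
    rw [abs_mul]
    exact mul_le_mul hs hp (abs_nonneg _) (by norm_num)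
  have h3 := (abs_le.1 h1).1
  have h4 := (abs_le.1 h2).1
  have h5 := (abs_le.1 hp).1
  nlinarith [sq_nonneg (x + y + z), sq_nonneg x, sq_nonneg y, sq_nonneg z]

/-- the sign attached to a truth value -/
def sg (b : Bool) : ℝ := if b then 1 else -1

lemma g_lower (t : Bool) {a b c : ℝ} (ha : |a - sg t| ≤ 1 / 4) (hb : |b - sg t| ≤ 1 / 4)
    (hc : |c - sg t| ≤ 1 / 4) :
    (a - sg t) ^ 2 + (b - sg t) ^ 2 + (c - sg t) ^ 2 ≤ g a b c := by
  cases t
  · have h1 : g a b c = g (-a) (-b) (-c) := by unfold g; ring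
    simp only [sg, Bool.false_eq_true, if_false] at ha hb hc ⊢
    rw [h1]
    have ha' : |(-a) - 1| ≤ 1 / 4 := by rw [← abs_neg]; convert ha using 2; ring
    have hb' : |(-b) - 1| ≤ 1 / 4 := by rw [← abs_neg]; convert hb using 2; ring
    have hc' : |(-c) - 1| ≤ 1 / 4 := by rw [← abs_neg]; convert hc using 2; ring
    have := g_lower_one ha' hb' hc'
    nlinarith [this]
  · simp only [sg, if_true] at ha hb hc ⊢
    exact g_lower_one ha hb hc

lemma eval_Q {y : V K → ℝ} (hy : eval y (P K) = 0) :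
    eval y (Q K) = 5043 / 160000 -
      ∑ k : Fin K, g (y (some (k, 0))) (y (some (k, 1))) (y (some (k, 2))) := by
  have h1 : y none = -∑ k : Fin K, (y (some (k, 0)) + y (some (k, 1)) + y (some (k, 2))) := by
    have : eval y (P K) = y none +
        ∑ k : Fin K, (y (some (k, 0)) + y (some (k, 1)) + y (some (k, 2))) := by
      simp [P, s, v]
    linarith
  set S : Fin K → ℝ := fun k => y (some (k, 0)) + y (some (k, 1)) + y (some (k, 2)) with hS
  set H : Fin K → ℝ := fun k => y (some (k, 0)) * y (some (k, 1)) * y (some (k, 2)) + 2 * S k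
    with hH
  set E : Fin K → ℝ := fun k => y (some (k, 0)) * y (some (k, 1)) +
    y (some (k, 1)) * y (some (k, 2)) + y (some (k, 2)) * y (some (k, 0)) with hE
  have h2 : eval y (Q K) = y none * ∑ k, H k + ∑ k, ∑ l, (if k = l then 0 else S k * H l) +
      ∑ k, (8 * E k - 3) + 5043 / 160000 := by
    simp only [Q, map_add, map_mul, map_sum, eval_X, eval_C, map_sub, h, s, v, e, hH, hS, hE]
    congr 3
    refine Finset.sum_congr rfl fun k _ => Finset.sum_congr rfl fun l _ => ?_
    split_ifs <;> simp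
  have h3 : ∑ k, ∑ l, (if k = l then 0 else S k * H l) = (∑ k, S k) * (∑ l, H l) -
      ∑ k, S k * H k := by
    rw [Finset.sum_mul_sum, ← Finset.sum_sub_distrib]
    refine Finset.sum_congr rfl fun k _ => ?_
    have h4 : ∀ l, (if k = l then 0 else S k * H l) = S k * H l - if k = l then S k * H l else 0 := by
      intro l; split_ifs <;> ring
    simp only [h4, Finset.sum_sub_distrib, Finset.sum_ite_eq, Finset.mem_univ, if_true]
  have h5 : ∀ k, g (y (some (k, 0))) (y (some (k, 1))) (y (some (k, 2))) =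
      S k * H k - (8 * E k - 3) := by
    intro k; simp only [g, hH, hS, hE]; ring
  rw [h2, h3, h1]
  simp only [h5, Finset.sum_sub_distrib]
  ring

section

variable {n : ℕ} (f : V K ≃ Fin n)

/-- the points of the zero set -/
lemma mem_iff (x : Fin n → ℝ) : x ∈ zeroSet (rename f (P K)) (rename f (Q K)) ↔
    eval (x ∘ f) (P K) = 0 ∧
      ∑ k : Fin K, g (x (f (some (k, 0)))) (x (f (some (k, 1)))) (x (f (some (k, 2)))) =
        5043 / 160000 := by
  simp only [zeroSet, Set.mem_setOf_eq, eval_rename]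
  constructor
  · rintro ⟨h1, h2⟩
    refine ⟨h1, ?_⟩
    rw [eval_Q h1] at h2
    simp only [Function.comp] at h2
    linarith
  · rintro ⟨h1, h2⟩
    refine ⟨h1, ?_⟩
    rw [eval_Q h1]
    simp only [Function.comp]
    linarith

/-- a clopen piece of the zero set -/
def W (ε : Fin K → Bool) : Set (zeroSet (rename f (P K)) (rename f (Q K))) :=
  {z | ∀ k j, |z.1 (f (some (k, j))) - sg (ε k)| ≤ 1 / 4}

lemma W_eq (ε : Fin K → Bool) :
    W f ε = {z | ∀ k j, |z.1 (f (some (k, j))) - sg (ε k)| < 1 / 4} := by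
  ext z
  simp only [W, Set.mem_setOf_eq]
  constructor
  · intro hz k j
    have h1 := ((mem_iff f z.1).1 z.2).2
    have h2 : ∀ k : Fin K, 0 ≤ g (z.1 (f (some (k, 0)))) (z.1 (f (some (k, 1))))
        (z.1 (f (some (k, 2)))) := fun k =>
      le_trans (by positivity) (g_lower (ε k) (hz k 0) (hz k 1) (hz k 2))
    have h3 : g (z.1 (f (some (k, 0)))) (z.1 (f (some (k, 1)))) (z.1 (f (some (k, 2)))) ≤
        5043 / 160000 := by
      rw [← h1]
      exact Finset.single_le_sum (f := fun k => g (z.1 (f (some (k, 0))))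
        (z.1 (f (some (k, 1)))) (z.1 (f (some (k, 2))))) (fun k _ => h2 k) (Finset.mem_univ k)
    have h4 := g_lower (ε k) (hz k 0) (hz k 1) (hz k 2)
    have h5 : (z.1 (f (some (k, j))) - sg (ε k)) ^ 2 ≤ 5043 / 160000 := by
      fin_cases j
      · simp only [Fin.zero_eta]; nlinarith [sq_nonneg (z.1 (f (some (k, 1))) - sg (ε k)),
          sq_nonneg (z.1 (f (some (k, 2))) - sg (ε k))]
      · simp only [Fin.mk_one]; nlinarith [sq_nonneg (z.1 (f (some (k, 0))) - sg (ε k)),
          sq_nonneg (z.1 (f (some (k, 2))) - sg (ε k))]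
      · simp only [Fin.reduceFinMk]; nlinarith [sq_nonneg (z.1 (f (some (k, 0))) - sg (ε k)),
          sq_nonneg (z.1 (f (some (k, 1))) - sg (ε k))]
    rw [abs_lt]
    constructor <;> nlinarith
  · intro hz k j
    exact (hz k j).le

lemma W_clopen (ε : Fin K → Bool) : IsClopen (W f ε) := by
  have hc : ∀ k j, Continuous fun z : zeroSet (rename f (P K)) (rename f (Q K)) =>
      |z.1 (f (some (k, j))) - sg (ε k)| := by
    intro k j
    exact (((continuous_apply _).comp continuous_subtype_val).sub continuous_const).abs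
  constructor
  · simp only [W, Set.setOf_forall]
    exact isClosed_iInter fun k => isClosed_iInter fun j => isClosed_le (hc k j) continuous_const
  · rw [W_eq]
    simp only [Set.setOf_forall]
    exact isOpen_iInter_of_finite fun k => isOpen_iInter_of_finite fun j =>
      isOpen_lt (hc k j) continuous_const

/-- coordinates of a point of `W f ε` -/
noncomputable def pt (k0 : Fin K) (ε : Fin K → Bool) : V K → ℝ
  | none => -∑ k : Fin K, 3 * (sg (ε k) * if k = k0 then 21 / 20 else 1)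
  | some (k, _) => sg (ε k) * if k = k0 then 21 / 20 else 1

lemma pt_mem (k0 : Fin K) (ε : Fin K → Bool) :
    pt k0 ε ∘ f.symm ∈ zeroSet (rename f (P K)) (rename f (Q K)) := by
  rw [mem_iff]
  constructor
  · have : (pt k0 ε ∘ f.symm) ∘ f = pt k0 ε := by
      ext i; simp
    rw [this]
    simp only [P, s, v, map_add, map_sum, eval_X, pt]
    rw [← Finset.sum_neg_distrib, ← Finset.sum_add_distrib]
    refine Finset.sum_eq_zero fun k _ => ?_
    ring
  · simp only [Function.comp, Equiv.symm_apply_apply, pt]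
    have : ∀ k : Fin K, g (sg (ε k) * if k = k0 then 21 / 20 else 1)
        (sg (ε k) * if k = k0 then 21 / 20 else 1) (sg (ε k) * if k = k0 then 21 / 20 else 1) =
        if k = k0 then 5043 / 160000 else 0 := by
      intro k
      unfold g sg
      split_ifs <;> norm_num
    simp only [this, Finset.sum_ite_eq', Finset.mem_univ, if_true]

lemma pt_W (k0 : Fin K) (ε : Fin K → Bool) : (⟨_, pt_mem f k0 ε⟩ :
    zeroSet (rename f (P K)) (rename f (Q K))) ∈ W f ε := by
  intro k j
  simp only [Function.comp, Equiv.symm_apply_apply, pt, sg]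
  split_ifs <;> norm_num [abs_le]

lemma eq_of_pt_mem (k0 : Fin K) {ε ε' : Fin K → Bool} (hm : (⟨_, pt_mem f k0 ε'⟩ :
    zeroSet (rename f (P K)) (rename f (Q K))) ∈ W f ε) : ε = ε' := by
  ext k
  have h1 := hm k 0
  simp only [Function.comp, Equiv.symm_apply_apply, pt, sg] at h1
  rw [abs_le] at h1
  cases hk : ε k <;> cases hk' : ε' k
  · rfl
  · simp only [hk, hk', if_true, Bool.false_eq_true, if_false] at h1
    split_ifs at h1 <;> norm_num at h1
  · simp only [hk, hk', if_true, Bool.false_eq_true, if_false] at h1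
    split_ifs at h1 <;> norm_num at h1
  · rfl

lemma card_le (k0 : Fin K) :
    ((2 ^ K : ℕ) : ℕ∞) ≤ b0 (zeroSet (rename f (P K)) (rename f (Q K))) := by
  have h1 : ENat.card (Fin K → Bool) = ((2 ^ K : ℕ) : ℕ∞) := by
    rw [ENat.card_eq_coe_fintype_card]
    simp
  rw [← h1]
  unfold b0
  refine ENat.card_le_card_of_injective (f := fun ε => ConnectedComponents.mk
    (⟨_, pt_mem f k0 ε⟩ : zeroSet (rename f (P K)) (rename f (Q K)))) ?_
  intro ε ε' hεε
  have h2 := ConnectedComponents.coe_eq_coe.1 hεε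
  have h3 := (W_clopen f ε).connectedComponent_subset (pt_W f k0 ε)
  rw [h2] at h3
  exact eq_of_pt_mem f k0 (h3 mem_connectedComponent)

end

lemma two_pow_le (d K : ℕ) (hd : 4 ≤ d) (hK : 1 ≤ K) : ((2 ^ K : ℕ) : ℕ∞) ≤ N2 d (3 * K + 1) := by
  classical
  have hcard : Fintype.card (V K) = 3 * K + 1 := by
    simp [V, Fintype.card_option, Fintype.card_prod, mul_comm]
  let f : V K ≃ Fin (3 * K + 1) := Fintype.equivFinOfCardEq hcard
  have haff : ∀ p : MvPolynomial (V K) ℝ, (∀ i, degreeOf i p ≤ 1) →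
      IsMultiAffine (rename f p) := by
    intro p hp i
    obtain ⟨j, rfl⟩ := f.surjective i
    rw [degreeOf_rename_of_injective f.injective]
    exact hp j
  refine (card_le f ⟨0, hK⟩).trans ?_
  unfold N2
  refine le_iSup_of_le (rename f (P K)) (le_iSup_of_le (rename f (Q K)) (le_iSup_of_le
    (haff _ P_aff) (le_iSup_of_le (haff _ Q_aff) (le_iSup_of_le ?_ (le_iSup_of_le ?_ le_rfl)))))
  · exact (totalDegree_rename_le _ _).trans (td_P.trans hd)
  · exact (totalDegree_rename_le _ _).trans (td_Q.trans hd)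

/-- For `d ≥ 4` one has `N₂(d, 3 K + 1) ≥ 2 ^ K` for all `K ≥ 1`. In particular there is not, for
every `d ≥ 1`, a bound for `N₂(d, n)` which does not depend on `n`. -/
theorem result :
    (∀ d K : ℕ, 4 ≤ d → 1 ≤ K → ((2 ^ K : ℕ) : ℕ∞) ≤ N2 d (3 * K + 1)) ∧
    ¬ ∀ d : ℕ, 1 ≤ d → ∃ B : ℕ, ∀ n : ℕ, 1 ≤ n → N2 d n ≤ (B : ℕ∞) := by
  refine ⟨two_pow_le, fun hh => ?_⟩
  obtain ⟨B, hB⟩ := hh 4 (by norm_num)
  have h1 := (two_pow_le 4 (B + 1) le_rfl (by omega)).trans (hB (3 * (B + 1) + 1) (by omega))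
  have h2 : 2 ^ (B + 1) ≤ B := by exact_mod_cast h1
  have h3 : B + 1 < 2 ^ (B + 1) := Nat.lt_two_pow_self
  omega

end Pool.Agent.Results.MP_12b847_ag.TwoPolynomials
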